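import Pool.Agent.X14.QR3
import Pool.Agent.X14.QR10

/-!
# The sum with weight `[2dk-1]` is divisible by `Φ_n(q)^3` for `n ≡ 1 (mod d)` and by `Φ_n(q)^4` for `2n ≡ 1 (mod d)`
-/

set_option autoImplicit false

namespace Pool.Agent.Results.MP_dcacaa_nt.CubesAndFourthPowers

open Finset Polynomial

noncomputable section

/-- The indeterminate `q`, as an element of `ℚ(q)`. -/
def q : RatFunc ℚ := RatFunc.X

/-- `[m] = (1 - q^m) / (1 - q)` for an integer `m` -/
def qint (m : ℤ) : RatFunc ℚ := (1 - q ^ m) / (1 - q)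

/-- The q-shifted factorial `(a; x)_k = (1 - a)(1 - a x) ⋯ (1 - a x^{k-1})`. -/
def qp (a x : RatFunc ℚ) (k : ℕ) : RatFunc ℚ := ∏ j ∈ range k, (1 - a * x ^ j)

/-- The sum `S_{d,n}(q)` of the problem. -/
def S (d n : ℕ) : RatFunc ℚ :=
  ∑ k ∈ range n, q ^ (d * (d - 1) / 2 * k) * qint (2 * d * k - 1) * (qp q⁻¹ (q ^ d) k / qp (q ^ d) (q ^ d) k) ^ d

/-- `A ≡ 0 (mod Φ^j)`: `A = U / V` with polynomials `U`, `V`, where `V` is coprime to `Φ` and
`Φ^j` divides `U`. -/
def ZeroMod (Φ : ℚ[X]) (j : ℕ) (A : RatFunc ℚ) : Prop :=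
  ∃ U V : ℚ[X], IsCoprime V Φ ∧ Φ ^ j ∣ U ∧
    A = algebraMap ℚ[X] (RatFunc ℚ) U / algebraMap ℚ[X] (RatFunc ℚ) V

open Pool.Agent.X14 QL QBlock QR

lemma q_def : q = QL.q := rfl

lemma zeroMod_of_QO {Φ : ℚ[X]} (hΦ : ¬ IsUnit Φ) {j : ℕ} {F : RatFunc ℚ} (h : QO Φ j F) : ZeroMod Φ j F := by
  obtain ⟨y, ⟨a, b, h1, h2⟩, h3⟩ := h
  refine ⟨Φ ^ j * a, b, h1, dvd_mul_right _ _, ?_⟩
  have hb : b ≠ 0 := by
    rintro rfl
    exact hΦ (isCoprime_zero_left.1 h1)
  rw [eq_div_iff (al_ne hb), h3, map_mul, map_pow, mul_assoc, h2]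

lemma S_eq {d n l : ℕ} (hl : d = 2 * l + 1) :
    S d n = (1 - QL.q : RatFunc ℚ)⁻¹ * ∑ k ∈ range n, W d l (-1) k * tt d (-1) k ^ d := by
  have hq0 : (QL.q : RatFunc ℚ) ≠ 0 := RatFunc.X_ne_zero
  unfold S
  rw [mul_sum]
  apply sum_congr rfl
  intro k _
  have e1 : qp q⁻¹ (q ^ d) k / qp (q ^ d) (q ^ d) k = tt d (-1) k := by
    unfold qp tt
    rw [← prod_div_distrib]
    apply prod_congr rfl
    intro j _
    rw [div_eq_mul_inv]
    have e2 : e (-1 + (d : ℤ) * j) = 1 - q⁻¹ * (q ^ d) ^ j := by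
      unfold e
      rw [q_def, ← pow_mul, zpow_add₀ hq0, zpow_neg_one, ← zpow_natCast QL.q (d * j)]
      congr 3
    have e3 : e ((d : ℤ) * (j + 1)) = 1 - q ^ d * (q ^ d) ^ j := by
      unfold e
      rw [q_def, ← pow_succ', ← pow_mul, ← zpow_natCast QL.q (d * (j + 1))]
      congr 2
    rw [e2, e3]
  have e4 : d * (d - 1) / 2 = d * l := by
    rw [hl, Nat.add_sub_cancel]
    have : (2 * l + 1) * (2 * l) = (2 * l + 1) * l * 2 := by ring
    rw [this, Nat.mul_div_cancel _ (by norm_num)]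
  rw [e1, e4]
  unfold qint W e
  rw [q_def, ← zpow_natCast QL.q (d * l * k)]
  have e5 : (2 * (d : ℤ) * k - 1) = -1 + 2 * (d : ℤ) * k := by ring
  have e6 : ((d * l * k : ℕ) : ℤ) = (d : ℤ) * l * k := by push_cast; ring
  rw [e5, e6, div_eq_mul_inv]
  ring

/-- **Full positive answer to Q1**: let `d ≥ 5` be odd and `n > 1`. If `n ≡ 1 (mod d)` then
`S_{d,n}(q)` is divisible by `Φ_n(q)^3`; if `2n ≡ 1 (mod d)` then it is divisible by `Φ_n(q)^4`. -/
theorem result (d n : ℕ) (hd : 5 ≤ d) (hdo : d % 2 = 1) (hn : 1 < n) :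
    (n ≡ 1 [MOD d] → ZeroMod (cyclotomic n ℚ) 3 (S d n)) ∧
    (2 * n ≡ 1 [MOD d] → ZeroMod (cyclotomic n ℚ) 4 (S d n)) := by
  have hn0 : 0 < n := by omega
  obtain ⟨l, hl⟩ : ∃ l, d = 2 * l + 1 := ⟨(d - 1) / 2, by omega⟩
  have hnd : ¬ n ∣ 1 := by
    intro hh
    have := Nat.le_of_dvd one_pos hh
    omega
  have hinv : (1 - QL.q : RatFunc ℚ)⁻¹ ∈ Loc (cyclotomic n ℚ) := by
    have := inv_one_sub_mem (N := n) (b := 1) hnd
    rwa [pow_one] at this
  have hunit : ¬ IsUnit (cyclotomic n ℚ) := (cyclotomic.irreducible_rat hn0).not_isUnit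
  rw [S_eq hl]
  constructor
  · intro h
    obtain ⟨c, hc⟩ := (Nat.modEq_iff_dvd' (by omega : 1 ≤ n)).1 h.symm
    have hc0 : 0 < c := by
      rcases Nat.eq_zero_or_pos c with h0 | h0
      · rw [h0, mul_zero] at hc; omega
      · exact h0
    have hc1 : n = d * c + 1 := by omega
    have hcn : c ≤ n := by
      have : 1 * c ≤ d * c := Nat.mul_le_mul_right c (by omega)
      omega
    have hcop : Nat.Coprime n d := by
      rw [hc1]
      simp
    have H : Hyp d (c - 1) (n - c) n l (-1) := by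
      refine ⟨hn0, ?_, by omega, ?_, by omega, by norm_num, by omega, hcop⟩
      · have h1 : (n : ℤ) = d * c + 1 := by exact_mod_cast hc1
        have h2 : (((c - 1 : ℕ) : ℤ)) = c - 1 := by omega
        rw [h2]
        linear_combination -h1
      · rw [hl]; push_cast; ring
    exact zeroMod_of_QO hunit (QO.mul_left hinv (main H hdo))
  · intro h
    obtain ⟨c, hc⟩ := (Nat.modEq_iff_dvd' (by omega : 1 ≤ 2 * n)).1 h.symm
    have hc0 : 0 < c := by
      rcases Nat.eq_zero_or_pos c with h0 | h0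
      · rw [h0, mul_zero] at hc; omega
      · exact h0
    have hc1 : 2 * n = d * c + 1 := by omega
    have hcn : c ≤ n := by
      have : 5 * c ≤ d * c := Nat.mul_le_mul_right c (by omega)
      omega
    have hcop : Nat.Coprime n d := by
      have h1 : Nat.Coprime (2 * n) d := by
        rw [hc1]
        simp
      exact Nat.Coprime.coprime_mul_left h1
    have H : Hyp2 d (c - 1) (n - c) n l (-1) := by
      refine ⟨hn0, ?_, by omega, ?_, by omega, by norm_num, hd, hdo, hcop⟩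
      · have h1 : (2 : ℤ) * n = d * c + 1 := by exact_mod_cast hc1
        have h2 : (((c - 1 : ℕ) : ℤ)) = c - 1 := by omega
        rw [h2]
        linear_combination -h1
      · rw [hl]; push_cast; ring
    exact zeroMod_of_QO hunit (QO.mul_left hinv (main2 H))

end

end Pool.Agent.Results.MP_dcacaa_nt.CubesAndFourthPowers
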